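import Pool.Agent.helper98.P2F.SpecC

/-! # p2f:CPLA: output of block F, completion version: the place -/

set_option autoImplicit false

open Complex Metric Set Filter Topology MeasureTheory
open Pool.Agent.helper98.ILF
open WP (it)
open HY (UD T S hd UN RM)
open PM
open P2 (SS FL FLS CLS FR TL)
open PL (TP LO PZ GJ INR PG DK ht tr DI CY hG cv hv cm BS DQ)
open P2B (VE)

noncomputable section

namespace P2F

/-- a nonempty set of positive bounded numbers has an almost maximal element. -/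
theorem CPLA_max {α : Type} (C : Set α) (v : α → ℝ) (B : ℝ) (hne : C.Nonempty) (hB : ∀ c ∈ C, v c ≤ B)
    (hpos : ∀ c ∈ C, 0 < v c) : ∃ c ∈ C, ∀ c' ∈ C, v c' ≤ 2 * v c := by
  have hne' : (v '' C).Nonempty := hne.image v
  have hbd : BddAbove (v '' C) := ⟨B, by rintro _ ⟨c, hc, rfl⟩; exact hB c hc⟩
  obtain ⟨c₀, hc₀⟩ := hne
  have h1 : 0 < sSup (v '' C) := lt_of_lt_of_le (hpos c₀ hc₀) (le_csSup hbd ⟨c₀, hc₀, rfl⟩)
  obtain ⟨_, ⟨c, hc, rfl⟩, h2⟩ := exists_lt_of_lt_csSup hne' (half_lt_self h1)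
  refine ⟨c, hc, fun c' hc' => ?_⟩
  have h3 := le_csSup hbd ⟨c', hc', rfl⟩
  linarith

theorem CPLA (hDGN : CDGN_stmt) (hVED : CVED_stmt) (hCBD : CBD_stmt) (hVCF : PM.VCF_stmt)
    (hTDF : PM.TDF_stmt) : CPLA_stmt := by
  intro f R hS μ x₀ hTP P hP hx U hU Q hQ a₀ ha₀
  obtain ⟨a, ha, haa, ha1, e, t, hD⟩ := hDGN f R hS μ x₀ hTP P hP hx U hU Q hQ a₀ ha₀
  obtain ⟨B, -, hB⟩ := hCBD f R hS
  have hER : ER f R := ⟨hS.R1, hS.esc⟩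
  have hx₀ : x₀ ∈ JJ f := hP.J 0 x₀ 0 (hx 0 0 le_rfl)
  have hcr : ∀ y ∈ JJ f, ∀ k : ℕ, 0 < cr (VC f R k y) y := by
    intro y hy k
    obtain ⟨hDW, hyW, -⟩ := hVCF f R hS.deg hER k y (hS.Jv y hy k)
    obtain ⟨-, -, h⟩ := hTDF _ hDW
    exact (h y hyW).2.1
  set C : ℕ → Set (ℕ × ℂ × ℕ × ℕ) := fun j => {c | j ≤ c.1 ∧ 1 ≤ c.2.2.2 ∧ c.2.2.1 + c.2.2.2 = t j ∧
    P j c.2.1 (c.1 + t j) ∧ Q (c.1 + c.2.2.2) (it f c.2.2.1 c.2.1) c.2.2.2 (e j)} with hC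
  have key : ∀ j, ∃ c : ℕ × ℂ × ℕ × ℕ, c.2.1 ∈ JJ f ∧ ((C j).Nonempty → c ∈ C j ∧
      ∀ c' ∈ C j, cr (VC f R (c'.1 + t j) c'.2.1) c'.2.1 ≤ 2 * cr (VC f R (c.1 + t j) c.2.1) c.2.1) := by
    intro j
    by_cases hne : (C j).Nonempty
    · obtain ⟨c, hc, hm⟩ := CPLA_max (C j) (fun c => cr (VC f R (c.1 + t j) c.2.1) c.2.1) B hne
        (fun c hc => hB _ (hP.J _ _ _ hc.2.2.2.1) _) (fun c hc => hcr _ (hP.J _ _ _ hc.2.2.2.1) _)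
      exact ⟨c, hP.J _ _ _ hc.2.2.2.1, fun _ => ⟨hc, hm⟩⟩
    · exact ⟨(0, x₀, 0, 0), hx₀, fun h => absurd h hne⟩
  choose c hcJ hc using key
  have hne : ∀ᶠ j in (U : Filter ℕ), (C j).Nonempty := by
    filter_upwards [hD.sct] with j hj
    obtain ⟨n', x, T', m', h1, h2, h3, h4, h5⟩ := hj.ret
    exact ⟨(n', x, T', m'), h1, h2, h3, h4, h5⟩
  refine ⟨a, ha, haa, ha1, e, fun j => (c j).2.1, fun j => (c j).1, fun j => (c j).2.2.1,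
    fun j => (c j).2.2.2, ?_⟩
  refine ⟨hcJ, hD.pos, hD.lim, ?_, ?_, ?_, ?_, ?_, ?_⟩
  · filter_upwards [hne] with j hj
    obtain ⟨⟨h1, h2, h3, h4, -⟩, -⟩ := hc j hj
    refine ⟨h1, h2, ?_⟩
    rw [h3]
    exact h4
  · filter_upwards [hne] with j hj
    obtain ⟨⟨-, -, -, -, h5⟩, -⟩ := hc j hj
    exact h5
  · filter_upwards [hne, hD.sct] with j hj hs
    obtain ⟨⟨-, -, h3, -, -⟩, -⟩ := hc j hj
    rw [h3]
    exact hs.fst
  · filter_upwards [hne, hD.sct] with j hj hs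
    obtain ⟨⟨-, -, h3, -, -⟩, -⟩ := hc j hj
    rw [h3]
    exact hs.los
  · intro y n' w hy h
    refine hVED f R hS μ x₀ hTP P hP U hU Q a ha e t hD y n' w hy ?_
    filter_upwards [h, hne] with j h1 hj
    obtain ⟨⟨-, -, h3, -, -⟩, -⟩ := hc j hj
    rw [h3] at h1
    exact h1
  · filter_upwards [hne] with j hj
    obtain ⟨⟨-, -, h3, -, -⟩, hm⟩ := hc j hj
    intro n' y T' m' h1 h2 h4 h5 h6
    rw [h3] at h4
    rw [h4] at h5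
    rw [h3, h4]
    exact hm (n', y, T', m') ⟨h1, h2, h4, h5, h6⟩

end P2F
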